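import Mathlib

set_option autoImplicit false

/-! The join of an edge with the triangular prism, drawn with straight edges on the flat torus. -/

namespace Pool.Agent.P.MP_9c2e29_co

/-- adjacency table: vertices 0, 1 are joined to everything, vertices 2..7 span a prism
(triangles 2 5 6 and 3 4 7, matching 2-3, 5-4, 6-7). -/
def adjB : Fin 8 → Fin 8 → Bool :=
  ![![false, true, true, true, true, true, true, true],
    ![true, false, true, true, true, true, true, true],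
    ![true, true, false, true, false, true, true, false],
    ![true, true, true, false, true, false, false, true],
    ![true, true, false, true, false, true, false, true],
    ![true, true, true, false, true, false, true, false],
    ![true, true, true, false, false, true, false, true],
    ![true, true, false, true, true, false, true, false]]

def G : SimpleGraph (Fin 8) where
  Adj u v := adjB u v = true
  symm := ⟨by decide⟩
  loopless := ⟨by decide⟩

instance : DecidableRel G.Adj := fun u v => inferInstanceAs (Decidable (adjB u v = true))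

def px : Fin 8 → ℤ := ![0, 5, 4, 4, 12, 7, 9, 1]
def py : Fin 8 → ℤ := ![1, 13, 5, 7, 4, 12, 7, 8]
def dx : Fin 8 → Fin 8 → ℤ :=
  ![![0, 5, 4, 4, -2, -7, -5, 1], ![-5, 0, -1, -1, 7, 2, 4, -4], ![-4, 1, 0, 0, 0, 3, 5, 0],
    ![-4, 1, 0, 0, -6, 0, 0, -3], ![2, -7, 0, 6, 0, -5, 0, 3], ![7, -2, -3, 0, 5, 0, 2, 0],
    ![5, -4, -5, 0, 0, -2, 0, 6], ![-1, 4, 0, 3, -3, 0, -6, 0]]
def dy : Fin 8 → Fin 8 → ℤ :=
  ![![0, -2, 4, 6, 3, -3, -8, -7], ![2, 0, 6, -6, 5, -1, 8, -5], ![-4, -6, 0, 2, 0, 7, 2, 0],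
    ![-6, 6, -2, 0, -3, 0, 0, 1], ![-3, -5, 0, 3, 0, -6, 0, 4], ![3, 1, -7, 0, 6, 0, -5, 0],
    ![8, -8, -2, 0, 0, 5, 0, 1], ![7, 5, 0, -1, -4, 0, -1, 0]]

/-- the five possible period shifts -/
def sh : Fin 5 → ℤ := ![-28, -14, 0, 14, 28]

theorem p_range : ∀ v : Fin 8, 0 ≤ px v ∧ px v < 14 ∧ 0 ≤ py v ∧ py v < 14 := by decide

theorem p_inj : ∀ u v : Fin 8, px u = px v → py u = py v → u = v := by decide

theorem d_range : ∀ u v : Fin 8, -14 < dx u v ∧ dx u v < 14 ∧ -14 < dy u v ∧ dy u v < 14 := by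
  decide

theorem d_ne : ∀ u v : Fin 8, adjB u v = true → (dx u v ≠ 0 ∨ dy u v ≠ 0) := by decide

theorem d_end : ∀ u v : Fin 8, adjB u v = true →
    (14 : ℤ) ∣ (px u + dx u v - px v) ∧ (14 : ℤ) ∣ (py u + dy u v - py v) := by decide

def vertOK (a1 a2 d1 d2 : ℤ) : Bool :=
  !(decide (a1 * d2 - a2 * d1 = 0) && decide (0 < -(a1 * d1 + a2 * d2)) &&
    decide (-(a1 * d1 + a2 * d2) < d1 * d1 + d2 * d2))

def crossOK (a1 a2 d1 d2 e1 e2 : ℤ) : Bool :=
  decide (d1 * e2 - d2 * e1 ≠ 0) &&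
  !(decide (0 < -(a1 * e2 - a2 * e1) * (d1 * e2 - d2 * e1)) &&
    decide (-(a1 * e2 - a2 * e1) * (d1 * e2 - d2 * e1) <
      (d1 * e2 - d2 * e1) * (d1 * e2 - d2 * e1)) &&
    decide (0 < -(a1 * d2 - a2 * d1) * (d1 * e2 - d2 * e1)) &&
    decide (-(a1 * d2 - a2 * d1) * (d1 * e2 - d2 * e1) <
      (d1 * e2 - d2 * e1) * (d1 * e2 - d2 * e1)))

theorem vert_check : ∀ u v : Fin 8, adjB u v = true → ∀ w : Fin 8, ∀ k l : Fin 5,
    vertOK (px u - px w - sh k) (py u - py w - sh l) (dx u v) (dy u v) = true := by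
  decide +kernel

theorem cross_check : ∀ u v : Fin 8, adjB u v = true → ∀ u' v' : Fin 8, adjB u' v' = true →
    ¬ ((u = u' ∧ v = v') ∨ (u = v' ∧ v = u')) → ∀ k l : Fin 5,
    crossOK (px u - px u' - sh k) (py u - py u' - sh l) (dx u v) (dy u v) (dx u' v') (dy u' v')
      = true := by
  decide +kernel

theorem vertOK_sound {a1 a2 d1 d2 : ℤ} (h : vertOK a1 a2 d1 d2 = true) (hd : d1 ≠ 0 ∨ d2 ≠ 0)
    {t : ℝ} (h0 : 0 < t) (h1 : t < 1) (e1 : (a1 : ℝ) + t * d1 = 0) (e2 : (a2 : ℝ) + t * d2 = 0) :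
    False := by
  have ha1 : (a1 : ℝ) = -(t * d1) := by linarith
  have ha2 : (a2 : ℝ) = -(t * d2) := by linarith
  have hpos : (0 : ℝ) < (d1 : ℝ) * d1 + d2 * d2 := by
    rcases hd with hd | hd
    · have : (d1 : ℝ) ≠ 0 := by exact_mod_cast hd
      have := mul_self_pos.mpr this
      nlinarith [mul_self_nonneg (d2 : ℝ)]
    · have : (d2 : ℝ) ≠ 0 := by exact_mod_cast hd
      have := mul_self_pos.mpr this
      nlinarith [mul_self_nonneg (d1 : ℝ)]
  have c1 : a1 * d2 - a2 * d1 = 0 := by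
    have : (a1 : ℝ) * d2 - a2 * d1 = 0 := by rw [ha1, ha2]; ring
    exact_mod_cast this
  have key : -((a1 : ℝ) * d1 + a2 * d2) = t * (d1 * d1 + d2 * d2) := by rw [ha1, ha2]; ring
  have c2 : 0 < -(a1 * d1 + a2 * d2) := by
    have : (0 : ℝ) < -((a1 : ℝ) * d1 + a2 * d2) := by rw [key]; positivity
    exact_mod_cast this
  have c3 : -(a1 * d1 + a2 * d2) < d1 * d1 + d2 * d2 := by
    have : -((a1 : ℝ) * d1 + a2 * d2) < (d1 : ℝ) * d1 + d2 * d2 := by rw [key]; nlinarith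
    exact_mod_cast this
  simp only [vertOK, c1, c2, c3, decide_true, Bool.and_self, Bool.not_true] at h
  exact absurd h (by decide)

theorem crossOK_sound {a1 a2 d1 d2 e1 e2 : ℤ} (h : crossOK a1 a2 d1 d2 e1 e2 = true)
    {s t : ℝ} (hs0 : 0 < s) (hs1 : s < 1) (ht0 : 0 < t) (ht1 : t < 1)
    (q1 : (a1 : ℝ) + s * d1 - t * e1 = 0) (q2 : (a2 : ℝ) + s * d2 - t * e2 = 0) : False := by
  have ha1 : (a1 : ℝ) = t * e1 - s * d1 := by linarith
  have ha2 : (a2 : ℝ) = t * e2 - s * d2 := by linarith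
  have hD : d1 * e2 - d2 * e1 ≠ 0 := by
    intro h0
    simp [crossOK, h0] at h
  have hDr : ((d1 : ℝ) * e2 - d2 * e1) ≠ 0 := by exact_mod_cast hD
  have hpos := mul_self_pos.mpr hDr
  have k1 : -((a1 : ℝ) * e2 - a2 * e1) * (d1 * e2 - d2 * e1)
      = s * (((d1 : ℝ) * e2 - d2 * e1) * (d1 * e2 - d2 * e1)) := by rw [ha1, ha2]; ring
  have k2 : -((a1 : ℝ) * d2 - a2 * d1) * (d1 * e2 - d2 * e1)
      = t * (((d1 : ℝ) * e2 - d2 * e1) * (d1 * e2 - d2 * e1)) := by rw [ha1, ha2]; ring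
  have c1 : 0 < -(a1 * e2 - a2 * e1) * (d1 * e2 - d2 * e1) := by
    have : (0 : ℝ) < -((a1 : ℝ) * e2 - a2 * e1) * (d1 * e2 - d2 * e1) := by rw [k1]; positivity
    exact_mod_cast this
  have c2 : -(a1 * e2 - a2 * e1) * (d1 * e2 - d2 * e1) <
      (d1 * e2 - d2 * e1) * (d1 * e2 - d2 * e1) := by
    have : -((a1 : ℝ) * e2 - a2 * e1) * (d1 * e2 - d2 * e1) <
      ((d1 : ℝ) * e2 - d2 * e1) * (d1 * e2 - d2 * e1) := by rw [k1]; nlinarith
    exact_mod_cast this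
  have c3 : 0 < -(a1 * d2 - a2 * d1) * (d1 * e2 - d2 * e1) := by
    have : (0 : ℝ) < -((a1 : ℝ) * d2 - a2 * d1) * (d1 * e2 - d2 * e1) := by rw [k2]; positivity
    exact_mod_cast this
  have c4 : -(a1 * d2 - a2 * d1) * (d1 * e2 - d2 * e1) <
      (d1 * e2 - d2 * e1) * (d1 * e2 - d2 * e1) := by
    have : -((a1 : ℝ) * d2 - a2 * d1) * (d1 * e2 - d2 * e1) <
      ((d1 : ℝ) * e2 - d2 * e1) * (d1 * e2 - d2 * e1) := by rw [k2]; nlinarith
    exact_mod_cast this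
  simp only [crossOK, c1, c2, c3, c4, decide_true, Bool.and_self, Bool.not_true,
    Bool.and_false] at h
  exact absurd h (by decide)

/-- the point of the circle with coordinate `x / 14` -/
noncomputable def pt (x : ℝ) : AddCircle (1 : ℝ) := ((x / 14 : ℝ) : AddCircle (1 : ℝ))

theorem pt_eq_iff (x y : ℝ) : pt x = pt y ↔ ∃ k : ℤ, x - y = 14 * k := by
  unfold pt
  rw [QuotientAddGroup.eq_iff_sub_mem, AddSubgroup.mem_zmultiples_iff]
  constructor
  · rintro ⟨k, hk⟩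
    refine ⟨k, ?_⟩
    rw [zsmul_eq_mul, mul_one] at hk
    linarith
  · rintro ⟨k, hk⟩
    refine ⟨k, ?_⟩
    rw [zsmul_eq_mul, mul_one]
    linarith

theorem pt_eq_sh {x y : ℝ} (h : pt x = pt y) (h1 : -42 < x - y) (h2 : x - y < 42) :
    ∃ k : Fin 5, x - y = (sh k : ℝ) := by
  obtain ⟨k, hk⟩ := (pt_eq_iff x y).1 h
  have a1 : (-3 : ℝ) < k := by linarith
  have a2 : (k : ℝ) < 3 := by linarith
  have b1 : -3 < k := by exact_mod_cast a1
  have b2 : k < 3 := by exact_mod_cast a2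
  rw [hk]
  interval_cases k
  · exact ⟨0, by simp [sh]; norm_num⟩
  · exact ⟨1, by simp [sh]⟩
  · exact ⟨2, by simp [sh]⟩
  · exact ⟨3, by simp [sh]⟩
  · exact ⟨4, by simp [sh]; norm_num⟩

theorem pt_eq_small {x y : ℝ} (h : pt x = pt y) (h1 : -14 < x - y) (h2 : x - y < 14) : x = y := by
  obtain ⟨k, hk⟩ := (pt_eq_iff x y).1 h
  have a1 : (-1 : ℝ) < k := by linarith
  have a2 : (k : ℝ) < 1 := by linarith
  have b1 : -1 < k := by exact_mod_cast a1
  have b2 : k < 1 := by exact_mod_cast a2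
  have : k = 0 := by omega
  subst this
  simp at hk
  linarith

theorem continuous_pt : Continuous pt := by
  unfold pt
  exact (AddCircle.continuous_mk' (1 : ℝ)).comp (continuous_id.div_const 14)

noncomputable def vp (v : Fin 8) : AddCircle (1 : ℝ) × AddCircle (1 : ℝ) := (pt (px v), pt (py v))

noncomputable def Γ (u v : Fin 8) : C(unitInterval, AddCircle (1 : ℝ) × AddCircle (1 : ℝ)) where
  toFun t := (pt (px u + (t : ℝ) * dx u v), pt (py u + (t : ℝ) * dy u v))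
  continuous_toFun := by
    refine Continuous.prodMk (continuous_pt.comp ?_) (continuous_pt.comp ?_) <;> fun_prop

theorem Γ_apply (u v : Fin 8) (t : unitInterval) :
    Γ u v t = (pt (px u + (t : ℝ) * dx u v), pt (py u + (t : ℝ) * dy u v)) := rfl

theorem mul_bound {t d : ℝ} (h0 : 0 ≤ t) (h1 : t ≤ 1) (hd0 : -14 < d) (hd1 : d < 14) :
    -14 < t * d ∧ t * d < 14 := by
  constructor <;> nlinarith

theorem diff_bound {s t d : ℝ} (hs0 : 0 ≤ s) (hs1 : s ≤ 1) (ht0 : 0 ≤ t) (ht1 : t ≤ 1)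
    (hd0 : -14 < d) (hd1 : d < 14) : -14 < s * d - t * d ∧ s * d - t * d < 14 := by
  rcases le_total t s with h | h
  · obtain ⟨a, b⟩ := mul_bound (t := s - t) (by linarith) (by linarith) hd0 hd1
    constructor <;> nlinarith
  · obtain ⟨a, b⟩ := mul_bound (t := t - s) (by linarith) (by linarith) hd0 hd1
    constructor <;> nlinarith

theorem ranges (u v : Fin 8) :
    ((0 : ℝ) ≤ px u ∧ (px u : ℝ) < 14 ∧ (0 : ℝ) ≤ py u ∧ (py u : ℝ) < 14) ∧
    ((-14 : ℝ) < dx u v ∧ (dx u v : ℝ) < 14 ∧ (-14 : ℝ) < dy u v ∧ (dy u v : ℝ) < 14) := by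
  obtain ⟨a, b, c, d⟩ := p_range u
  obtain ⟨e, f, g, h⟩ := d_range u v
  refine ⟨⟨?_, ?_, ?_, ?_⟩, ⟨?_, ?_, ?_, ?_⟩⟩ <;> assumption_mod_cast

theorem toroidal :
    ∃ (p : Fin 8 → AddCircle (1:ℝ) × AddCircle (1:ℝ))
         (γ : Fin 8 → Fin 8 → C(unitInterval, AddCircle (1:ℝ) × AddCircle (1:ℝ))),
         Function.Injective p ∧
         (∀ u v, G.Adj u v → γ u v 0 = p u ∧ γ u v 1 = p v ∧ Function.Injective (γ u v)) ∧
         (∀ (u v w : Fin 8) (t : unitInterval), G.Adj u v → 0 < (t:ℝ) → (t:ℝ) < 1 →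
            γ u v t ≠ p w) ∧
         (∀ (u v u' v' : Fin 8) (s t : unitInterval), G.Adj u v → G.Adj u' v' →
            ¬ ((u = u' ∧ v = v') ∨ (u = v' ∧ v = u')) →
            0 < (s:ℝ) → (s:ℝ) < 1 → 0 < (t:ℝ) → (t:ℝ) < 1 → γ u v s ≠ γ u' v' t) := by
  refine ⟨vp, Γ, ?_, ?_, ?_, ?_⟩
  · intro u v h
    obtain ⟨⟨a1, a2, a3, a4⟩, -⟩ := ranges u v
    obtain ⟨⟨b1, b2, b3, b4⟩, -⟩ := ranges v u
    have hx := pt_eq_small (congrArg Prod.fst h) (by linarith) (by linarith)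
    have hy := pt_eq_small (congrArg Prod.snd h) (by linarith) (by linarith)
    exact p_inj u v (by exact_mod_cast hx) (by exact_mod_cast hy)
  · intro u v huv
    refine ⟨?_, ?_, ?_⟩
    · simp [Γ_apply, vp]
    · obtain ⟨⟨k, hk⟩, ⟨l, hl⟩⟩ := d_end u v huv
      rw [Γ_apply, vp]
      refine Prod.ext ((pt_eq_iff _ _).2 ⟨k, ?_⟩) ((pt_eq_iff _ _).2 ⟨l, ?_⟩)
      · have : ((px u + dx u v - px v : ℤ) : ℝ) = ((14 * k : ℤ) : ℝ) := by rw [hk]
        push_cast at this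
        simpa using this
      · have : ((py u + dy u v - py v : ℤ) : ℝ) = ((14 * l : ℤ) : ℝ) := by rw [hl]
        push_cast at this
        simpa using this
    · intro s t h
      rw [Γ_apply, Γ_apply] at h
      obtain ⟨-, ⟨b1, b2, b3, b4⟩⟩ := ranges u v
      have hs0 := s.2.1
      have hs1 := s.2.2
      have ht0 := t.2.1
      have ht1 := t.2.2
      obtain ⟨m1, m2⟩ := diff_bound hs0 hs1 ht0 ht1 b1 b2
      obtain ⟨m3, m4⟩ := diff_bound hs0 hs1 ht0 ht1 b3 b4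
      have hx := pt_eq_small (congrArg Prod.fst h) (by linarith) (by linarith)
      have hy := pt_eq_small (congrArg Prod.snd h) (by linarith) (by linarith)
      apply Subtype.ext
      rcases d_ne u v huv with hd | hd
      · have : (dx u v : ℝ) ≠ 0 := by exact_mod_cast hd
        exact mul_right_cancel₀ this (by linarith)
      · have : (dy u v : ℝ) ≠ 0 := by exact_mod_cast hd
        exact mul_right_cancel₀ this (by linarith)
  · intro u v w t huv h0 h1 h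
    rw [Γ_apply, vp] at h
    obtain ⟨⟨a1, a2, a3, a4⟩, ⟨b1, b2, b3, b4⟩⟩ := ranges u v
    obtain ⟨⟨c1, c2, c3, c4⟩, -⟩ := ranges w v
    obtain ⟨m1, m2⟩ := mul_bound h0.le h1.le b1 b2
    obtain ⟨m3, m4⟩ := mul_bound h0.le h1.le b3 b4
    obtain ⟨k, hk⟩ := pt_eq_sh (congrArg Prod.fst h) (by linarith) (by linarith)
    obtain ⟨l, hl⟩ := pt_eq_sh (congrArg Prod.snd h) (by linarith) (by linarith)
    refine vertOK_sound (vert_check u v huv w k l) (d_ne u v huv) h0 h1 ?_ ?_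
    · push_cast; linarith
    · push_cast; linarith
  · intro u v u' v' s t huv huv' hne hs0 hs1 ht0 ht1 h
    rw [Γ_apply, Γ_apply] at h
    obtain ⟨⟨a1, a2, a3, a4⟩, ⟨b1, b2, b3, b4⟩⟩ := ranges u v
    obtain ⟨⟨c1, c2, c3, c4⟩, ⟨d1, d2, d3, d4⟩⟩ := ranges u' v'
    obtain ⟨m1, m2⟩ := mul_bound hs0.le hs1.le b1 b2
    obtain ⟨m3, m4⟩ := mul_bound hs0.le hs1.le b3 b4
    obtain ⟨n1, n2⟩ := mul_bound ht0.le ht1.le d1 d2
    obtain ⟨n3, n4⟩ := mul_bound ht0.le ht1.le d3 d4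
    obtain ⟨k, hk⟩ := pt_eq_sh (congrArg Prod.fst h) (by linarith) (by linarith)
    obtain ⟨l, hl⟩ := pt_eq_sh (congrArg Prod.snd h) (by linarith) (by linarith)
    refine crossOK_sound (cross_check u v huv u' v' huv' hne k l) hs0 hs1 ht0 ht1 ?_ ?_
    · push_cast; linarith
    · push_cast; linarith

end Pool.Agent.P.MP_9c2e29_co
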