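import Pool.Agent.P.MP_9c2e29_co.Embed

set_option autoImplicit false

/-! Two 5-colourings of the join of an edge with the prism that are not Kempe equivalent. -/

namespace Pool.Agent.P.MP_9c2e29_co

def f₁ : Fin 8 → Fin 5 := ![0, 1, 2, 3, 2, 4, 3, 4]
def f₂ : Fin 8 → Fin 5 := ![0, 1, 2, 3, 4, 3, 4, 2]

def col₁ : G.Coloring (Fin 5) := SimpleGraph.Coloring.mk f₁ (by decide)
def col₂ : G.Coloring (Fin 5) := SimpleGraph.Coloring.mk f₂ (by decide)

/-- one Kempe change, as in the frozen statement -/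
def Step (c c' : Fin 8 → Fin 5) : Prop :=
  ∃ (a b : Fin 5) (x : Fin 8), ∀ v : Fin 8,
    ((SimpleGraph.fromRel (fun y z => G.Adj y z ∧ (c y = a ∨ c y = b) ∧
        (c z = a ∨ c z = b))).Reachable x v → c' v = Equiv.swap a b (c v)) ∧
    (¬ (SimpleGraph.fromRel (fun y z => G.Adj y z ∧ (c y = a ∨ c y = b) ∧
        (c z = a ∨ c z = b))).Reachable x v → c' v = c v)

/-- the colouring is `f₁` up to renaming the colours -/
def Inv (c : Fin 8 → Fin 5) : Prop := ∃ σ : Equiv.Perm (Fin 5), ∀ v, c v = σ (f₁ v)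

theorem conn : ∀ a b : Fin 5, a ≠ b → ∀ x v : Fin 8, (f₁ x = a ∨ f₁ x = b) →
    (f₁ v = a ∨ f₁ v = b) → x = v ∨ G.Adj x v ∨
      (∃ w, (f₁ w = a ∨ f₁ w = b) ∧ G.Adj x w ∧ G.Adj w v) ∨
      (∃ w w', (f₁ w = a ∨ f₁ w = b) ∧ (f₁ w' = a ∨ f₁ w' = b) ∧
        G.Adj x w ∧ G.Adj w w' ∧ G.Adj w' v) := by
  decide +kernel

theorem inv_step {c c' : Fin 8 → Fin 5} (hc : Inv c) (h : Step c c') : Inv c' := by
  obtain ⟨σ, hσ⟩ := hc
  obtain ⟨a, b, x, hx⟩ := h
  set H := SimpleGraph.fromRel (fun y z => G.Adj y z ∧ (c y = a ∨ c y = b) ∧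
        (c z = a ∨ c z = b)) with hH
  have hadj : ∀ y z, G.Adj y z → (c y = a ∨ c y = b) → (c z = a ∨ c z = b) → H.Adj y z := by
    intro y z h1 h2 h3
    rw [hH, SimpleGraph.fromRel_adj]
    exact ⟨h1.ne, Or.inl ⟨h1, h2, h3⟩⟩
  have hout : ∀ v, ¬ (c v = a ∨ c v = b) → Equiv.swap a b (c v) = c v := by
    intro v hv
    rw [not_or] at hv
    exact Equiv.swap_apply_of_ne_of_ne hv.1 hv.2
  by_cases hab : a = b
  · refine ⟨σ, fun v => ?_⟩
    rw [← hσ v]
    by_cases hr : H.Reachable x v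
    · rw [(hx v).1 hr, hab, Equiv.swap_self]; rfl
    · exact (hx v).2 hr
  by_cases hxin : c x = a ∨ c x = b
  · refine ⟨σ.trans (Equiv.swap a b), fun v => ?_⟩
    rw [Equiv.trans_apply, ← hσ v]
    by_cases hv : c v = a ∨ c v = b
    · apply (hx v).1
      have tr : ∀ y, (f₁ y = σ.symm a ∨ f₁ y = σ.symm b) ↔ (c y = a ∨ c y = b) := by
        intro y
        rw [hσ y, Equiv.eq_symm_apply, Equiv.eq_symm_apply]
      have hab' : σ.symm a ≠ σ.symm b := fun h => hab (σ.symm.injective h)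
      rcases conn _ _ hab' x v ((tr x).2 hxin) ((tr v).2 hv) with
        rfl | h1 | ⟨w, hw, h1, h2⟩ | ⟨w, w', hw, hw', h1, h2, h3⟩
      · exact SimpleGraph.Reachable.refl _
      · exact (hadj _ _ h1 hxin hv).reachable
      · exact (hadj _ _ h1 hxin ((tr w).1 hw)).reachable.trans
          (hadj _ _ h2 ((tr w).1 hw) hv).reachable
      · exact ((hadj _ _ h1 hxin ((tr w).1 hw)).reachable.trans
          (hadj _ _ h2 ((tr w).1 hw) ((tr w').1 hw')).reachable).trans
          (hadj _ _ h3 ((tr w').1 hw') hv).reachable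
    · by_cases hr : H.Reachable x v
      · exact (hx v).1 hr
      · rw [(hx v).2 hr, hout v hv]
  · refine ⟨σ, fun v => ?_⟩
    rw [← hσ v]
    by_cases hr : H.Reachable x v
    · have hxv : x = v := by
        obtain ⟨w⟩ := hr
        cases w with
        | nil => rfl
        | cons h _ =>
          exfalso
          rw [hH, SimpleGraph.fromRel_adj] at h
          rcases h.2 with h | h
          · exact hxin h.2.1
          · exact hxin h.2.2
      subst hxv
      rw [(hx x).1 hr, hout x hxin]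
    · exact (hx v).2 hr

theorem not_equiv : ¬ Relation.ReflTransGen Step (⇑col₁) (⇑col₂) := by
  intro h
  have key : ∀ c, Relation.ReflTransGen Step (⇑col₁) c → Inv c := by
    intro c hc
    induction hc with
    | refl => exact ⟨Equiv.refl _, fun v => rfl⟩
    | tail _ hs ih => exact inv_step ih hs
  obtain ⟨σ, hσ⟩ := key _ h
  have h2 : f₂ 2 = σ (f₁ 2) := hσ 2
  have h4 : f₂ 4 = σ (f₁ 4) := hσ 4
  have e : f₁ 2 = f₁ 4 := by decide
  rw [e, ← h4] at h2
  exact absurd h2 (by decide)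

end Pool.Agent.P.MP_9c2e29_co
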